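import Pool.Agent.Helper1.FX.Family
import Pool.Agent.Helper15.LW.Sperner

/-!
# MP_be0fb5, full answer: systems (chain simplices) of smallest size, definitions and existence

A system of `K` is a unimodular quadruple `P` of lattice points with a balanced family `v` of separators.
Its size `PHI` is half of the sum of the squares of the four cyclic differences, seen by `v`.
-/

set_option autoImplicit false

namespace Pool.Agent.Helper46.GM

open Matrix Pool.Agent.Helper12.LW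
open Pool.Agent.Helper84.FL (Superbase)

/-- cyclic differences -/
def cyc (P : Fin 4 → Fin 3 → ℤ) : Fin 4 → Fin 3 → ℤ :=
  ![P 1 - P 0, P 2 - P 1, P 3 - P 2, P 0 - P 3]

/-- a system of separators of `K` -/
structure Sys (K : Set (Fin 3 → ℝ)) (P : Fin 4 → Fin 3 → ℤ) (v : Fin 4 → Fin 3 → ℝ) : Prop where
  base : Superbase (cyc P)
  sep : Sep4 K P v

/-- the vector of the values of `v` at a difference -/
def GG (v : Fin 4 → Fin 3 → ℝ) (u : Fin 3 → ℤ) (k : Fin 4) : ℝ := v k ⬝ᵥ toR u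

/-- the size of a system -/
noncomputable def PHI (P : Fin 4 → Fin 3 → ℤ) (v : Fin 4 → Fin 3 → ℝ) : ℝ :=
  (∑ l, ∑ k, GG v (cyc P l) k ^ 2) / 2

/-- the Selling parameters of a system -/
def sel (P : Fin 4 → Fin 3 → ℤ) (v : Fin 4 → Fin 3 → ℝ) (l m : Fin 4) : ℝ :=
  -∑ k, GG v (cyc P l) k * GG v (cyc P m) k

/-- barycentric coordinates -/
def LL (P : Fin 4 → Fin 3 → ℤ) (v : Fin 4 → Fin 3 → ℝ) (j : Fin 4) (x : Fin 3 → ℝ) : ℝ :=
  v j ⬝ᵥ (toR (P j) - x)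

/-- near minimality -/
def NearMin (K : Set (Fin 3 → ℝ)) (η : ℝ) (P : Fin 4 → Fin 3 → ℤ) (v : Fin 4 → Fin 3 → ℝ) : Prop :=
  Sys K P v ∧ ∀ P' v', Sys K P' v' → PHI P v ≤ (1 + η) * PHI P' v'

theorem toR_add (x y : Fin 3 → ℤ) : toR (x + y) = toR x + toR y := by
  funext i
  simp [toR]

theorem toR_sub (x y : Fin 3 → ℤ) : toR (x - y) = toR x - toR y := by
  funext i
  simp [toR]

theorem toR_neg (x : Fin 3 → ℤ) : toR (-x) = -toR x := by
  funext i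
  simp [toR]

theorem GG_sub (v : Fin 4 → Fin 3 → ℝ) (x y : Fin 3 → ℤ) (k : Fin 4) :
    GG v (x - y) k = v k ⬝ᵥ toR x - v k ⬝ᵥ toR y := by
  unfold GG
  rw [toR_sub, dotProduct_sub]

/-- the four vectors `c` are a superbase as soon as they have sum zero and generate a superbase. -/
theorem sb_trans {f g : Fin 4 → Fin 3 → ℤ} (hf : Superbase f) (hg : ∑ l, g l = 0)
    (h : ∀ l, ∃ a : Fin 4 → ℤ, f l = ∑ m, a m • g m) : Superbase g := by
  refine ⟨hg, fun z => ?_⟩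
  obtain ⟨b, hb⟩ := hf.span z
  choose a ha using h
  refine ⟨fun m => ∑ l, b l * a l m, ?_⟩
  calc z = ∑ l, b l • f l := hb
    _ = ∑ l, b l • ∑ m, a l m • g m := Finset.sum_congr rfl fun l _ => by rw [ha l]
    _ = ∑ l, ∑ m, (b l * a l m) • g m := Finset.sum_congr rfl fun l _ => by
        rw [Finset.smul_sum]
        exact Finset.sum_congr rfl fun m _ => by rw [smul_smul]
    _ = ∑ m, ∑ l, (b l * a l m) • g m := Finset.sum_comm
    _ = ∑ m, (∑ l, b l * a l m) • g m := Finset.sum_congr rfl fun m _ => by rw [Finset.sum_smul]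

theorem cyc_sum (P : Fin 4 → Fin 3 → ℤ) : ∑ l, cyc P l = 0 := by
  rw [Fin.sum_univ_four]
  simp only [cyc, Matrix.cons_val_zero, Matrix.cons_val_one, Matrix.cons_val]
  abel

/-- the cyclic differences of a chain are a superbase -/
theorem cyc_chainP {f : Fin 4 → Fin 3 → ℤ} (hf : Superbase f) (z : Fin 3 → ℤ) (σ : Equiv.Perm (Fin 3)) :
    Superbase (cyc (chainP f z σ)) := by
  have h3 : f 3 = -(f 0 + f 1 + f 2) := by
    have h := hf.sum
    rw [Fin.sum_univ_four] at h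
    have h2 : f 3 = (f 0 + f 1 + f 2 + f 3) - (f 0 + f 1 + f 2) := by abel
    rw [h2, h]
    abel
  have hc : cyc (chainP f z σ) = ![f (σ 0).castSucc, f (σ 1).castSucc, f (σ 2).castSucc, f 3] := by
    have hs : f (σ 0).castSucc + f (σ 1).castSucc + f (σ 2).castSucc = f 0 + f 1 + f 2 := by
      have h := Equiv.sum_comp σ (fun j : Fin 3 => f j.castSucc)
      rw [Fin.sum_univ_three, Fin.sum_univ_three] at h
      exact h
    funext l
    fin_cases l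
    · simp [cyc, chainP, Fin.sum_univ_three]
    · simp [cyc, chainP, Fin.sum_univ_three]
    · simp [cyc, chainP, Fin.sum_univ_three]
    · simp only [cyc, chainP, Fin.sum_univ_three]
      simp
      rw [h3, ← hs]
      abel
  rw [hc]
  refine sb_trans hf ?_ ?_
  · rw [← hc]
    exact cyc_sum _
  · intro l
    by_cases hl : l = 3
    · subst hl
      exact ⟨![0, 0, 0, 1], by simp [Fin.sum_univ_four]⟩
    · have hl' : (l : ℕ) < 3 := by
        have := l.isLt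
        have h5 : (l : ℕ) ≠ 3 := fun h => hl (Fin.ext h)
        omega
      set j : Fin 3 := ⟨l, hl'⟩ with hj
      have hjl : j.castSucc = l := Fin.ext rfl
      obtain ⟨i, hi⟩ : ∃ i, σ i = j := ⟨σ.symm j, by simp⟩
      rw [← hjl, ← hi]
      fin_cases i
      · exact ⟨![1, 0, 0, 0], by simp [Fin.sum_univ_four]⟩
      · exact ⟨![0, 1, 0, 0], by simp [Fin.sum_univ_four]⟩
      · exact ⟨![0, 0, 1, 0], by simp [Fin.sum_univ_four]⟩

/-- there is a system -/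
theorem exists_sys (K : Set (Fin 3 → ℝ)) (hK : LFree K) : ∃ P v, Sys K P v := by
  have hdet : IsUnit (Matrix.of ![Helper1.FX.f0 0, Helper1.FX.f0 1, Helper1.FX.f0 2]).det := by
    rw [show (Matrix.of ![Helper1.FX.f0 0, Helper1.FX.f0 1, Helper1.FX.f0 2]).det = 1 by
      rw [Matrix.det_fin_three]
      simp [Helper1.FX.f0]]
    exact isUnit_one
  obtain ⟨z, σ, v, hv⟩ := Helper15.LW.sperner K hK Helper1.FX.f0 Helper1.FX.f0_sb.sum hdet
  exact ⟨_, v, cyc_chainP Helper1.FX.f0_sb z σ, hv⟩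

theorem PHI_nonneg (P : Fin 4 → Fin 3 → ℤ) (v : Fin 4 → Fin 3 → ℝ) : 0 ≤ PHI P v :=
  div_nonneg (Finset.sum_nonneg fun _ _ => Finset.sum_nonneg fun _ _ => sq_nonneg _) (by norm_num)

/-- the size of a system is at least one twelfth -/
theorem PHI_ge {K : Set (Fin 3 → ℝ)} {P : Fin 4 → Fin 3 → ℤ} {v : Fin 4 → Fin 3 → ℝ} (h : Sep4 K P v) :
    1 / 12 ≤ PHI P v := by
  have h1 := h.norm_one
  have h0 : v 0 = -(v 1 + v 2 + v 3) := by
    have h := h.sum_zero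
    rw [Fin.sum_univ_four] at h
    have h2 : v 0 = (v 0 + v 1 + v 2 + v 3) - (v 1 + v 2 + v 3) := by abel
    rw [h2, h]
    abel
  rw [Fin.sum_univ_four] at h1
  unfold PHI
  simp only [Fin.sum_univ_four, cyc, Matrix.cons_val_zero, Matrix.cons_val_one, Matrix.cons_val, GG_sub]
  have e0 : v 0 ⬝ᵥ toR (P 0) = -(v 1 ⬝ᵥ toR (P 0) + v 2 ⬝ᵥ toR (P 0) + v 3 ⬝ᵥ toR (P 0)) := by
    rw [h0, neg_dotProduct, add_dotProduct, add_dotProduct]
  rw [e0] at h1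
  set a10 := v 1 ⬝ᵥ toR (P 0)
  set a11 := v 1 ⬝ᵥ toR (P 1)
  set a20 := v 2 ⬝ᵥ toR (P 0)
  set a21 := v 2 ⬝ᵥ toR (P 1)
  set a22 := v 2 ⬝ᵥ toR (P 2)
  set a30 := v 3 ⬝ᵥ toR (P 0)
  set a31 := v 3 ⬝ᵥ toR (P 1)
  set a32 := v 3 ⬝ᵥ toR (P 2)
  set a33 := v 3 ⬝ᵥ toR (P 3)
  nlinarith [sq_nonneg ((a11 - a10) - 1 / 6), sq_nonneg ((a21 - a20) - 1 / 6),
    sq_nonneg ((a22 - a21) - 1 / 6), sq_nonneg ((a31 - a30) - 1 / 6), sq_nonneg ((a32 - a31) - 1 / 6),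
    sq_nonneg ((a33 - a32) - 1 / 6), sq_nonneg (v 0 ⬝ᵥ toR (P 1) - v 0 ⬝ᵥ toR (P 0)),
    sq_nonneg (v 0 ⬝ᵥ toR (P 2) - v 0 ⬝ᵥ toR (P 1)), sq_nonneg (v 0 ⬝ᵥ toR (P 3) - v 0 ⬝ᵥ toR (P 2)),
    sq_nonneg (v 1 ⬝ᵥ toR (P 2) - v 1 ⬝ᵥ toR (P 1)), sq_nonneg (v 1 ⬝ᵥ toR (P 3) - v 1 ⬝ᵥ toR (P 2)),
    sq_nonneg (v 2 ⬝ᵥ toR (P 3) - v 2 ⬝ᵥ toR (P 2)), sq_nonneg (v 0 ⬝ᵥ toR (P 0) - v 0 ⬝ᵥ toR (P 3)),
    sq_nonneg (v 1 ⬝ᵥ toR (P 0) - v 1 ⬝ᵥ toR (P 3)), sq_nonneg (v 2 ⬝ᵥ toR (P 0) - v 2 ⬝ᵥ toR (P 3)),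
    sq_nonneg (v 3 ⬝ᵥ toR (P 0) - v 3 ⬝ᵥ toR (P 3))]

/-- **(GM0)** a system of nearly smallest size -/
theorem exists_nearMin (K : Set (Fin 3 → ℝ)) (hK : LFree K) (η : ℝ) (hη : 0 < η) :
    ∃ P v, NearMin K η P v := by
  set S : Set ℝ := {t | ∃ P v, Sys K P v ∧ PHI P v = t} with hS
  obtain ⟨P0, v0, h0⟩ := exists_sys K hK
  have hne : S.Nonempty := ⟨_, P0, v0, h0, rfl⟩
  have hlow : ∀ t ∈ S, 1 / 12 ≤ t := by
    rintro t ⟨P, v, h, rfl⟩
    exact PHI_ge h.sep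
  have hbdd : BddBelow S := ⟨1 / 12, hlow⟩
  have hinf : 1 / 12 ≤ sInf S := le_csInf hne hlow
  have hlt : sInf S < (1 + η) * sInf S := by nlinarith
  obtain ⟨t, ⟨P, v, h, rfl⟩, ht⟩ := exists_lt_of_csInf_lt hne hlt
  refine ⟨P, v, h, fun P' v' h' => ?_⟩
  have h1 : sInf S ≤ PHI P' v' := csInf_le hbdd ⟨P', v', h', rfl⟩
  have h2 : (1 + η) * sInf S ≤ (1 + η) * PHI P' v' := mul_le_mul_of_nonneg_left h1 (by linarith)
  linarith

end Pool.Agent.Helper46.GM
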