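import Pool.Agent.Helper46.GM.Moves

/-!
# MP_be0fb5, full answer: the general comparisons which follow from (near) minimality
-/

set_option autoImplicit false

namespace Pool.Agent.Helper46.GM

open Matrix Pool.Agent.Helper12.LW
open Pool.Agent.Helper84.FL (Superbase)

variable {K : Set (Fin 3 → ℝ)} {P : Fin 4 → Fin 3 → ℤ} {v : Fin 4 → Fin 3 → ℝ} {η : ℝ}

theorem LL_eq (P : Fin 4 → Fin 3 → ℤ) (v : Fin 4 → Fin 3 → ℝ) (j : Fin 4) (x : Fin 3 → ℝ) :
    LL P v j x = v j ⬝ᵥ toR (P j) - v j ⬝ᵥ x := by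
  unfold LL
  rw [dotProduct_sub]

/-- **(GMg)** comparison with an arbitrary unimodular quadruple behind the facets. -/
theorem NearMin.gen (hm : NearMin K η P v) (P' : Fin 4 → Fin 3 → ℤ)
    (hP : ∀ k, LL P v k (toR (P' k)) ≤ 0) (τ : Equiv.Perm (Fin 4))
    (hb : Superbase (cyc (fun k => P' (τ k)))) :
    (1 - ∑ k, LL P v k (toR (P' k))) ^ 2 * PHI P v ≤
      (1 + η) * PHI (fun k => P' (τ k)) (fun k => v (τ k)) := by
  have hS := hm.1.sep
  have hh : (∑ j, v (τ j) ⬝ᵥ toR (P' (τ j))) = 1 - ∑ k, LL P v k (toR (P' k)) := by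
    rw [Equiv.sum_comp τ (fun j => v j ⬝ᵥ toR (P' j))]
    simp only [LL_eq, Finset.sum_sub_distrib]
    rw [hS.norm_one]
    ring
  have hle : ∑ k, LL P v k (toR (P' k)) ≤ 0 := Finset.sum_nonpos fun k _ => hP k
  have h2 := hm.le (fun k => P' (τ k)) (fun k => v (τ k)) hb (by
      rw [Equiv.sum_comp τ v]
      exact hS.sum_zero) (fun j x hx => by
      have h3 := hP (τ j)
      rw [LL_eq] at h3
      linarith [hS.sep (τ j) x hx]) (by rw [hh]; linarith)
  rw [hh] at h2
  exact h2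

/-- **(GMc)** comparison with the system obtained from a cut at the lattice point `z`. -/
theorem NearMin.cut (hm : NearMin K η P v) (z : Fin 3 → ℤ) (c : Fin 4 → ℝ) (hc0 : ∀ i, 0 ≤ c i)
    (i0 : Fin 4) (hi0 : c i0 = 0) (hpos : 0 < ∑ i, c i * LL P v i (toR z))
    (hc : ∀ x ∈ K, ∑ i, c i * LL P v i x ≤ ∑ i, c i * LL P v i (toR z)) (τ : Equiv.Perm (Fin 4))
    (hb : Superbase (cyc (fun k => Function.update P i0 z (τ k)))) :
    (∑ i, c i * LL P v i (toR z)) ^ 2 * PHI P v ≤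
      (1 + η) * PHI (fun k => Function.update P i0 z (τ k))
        (fun k => Function.update (fun i => c i • v i) i0 (-∑ j, c j • v j) (τ k)) := by
  have hS := hm.1.sep
  set w : Fin 4 → Fin 3 → ℝ := Function.update (fun i => c i • v i) i0 (-∑ j, c j • v j) with hw
  set Q : Fin 4 → Fin 3 → ℤ := Function.update P i0 z with hQ
  have hw0 : w i0 = -∑ j, c j • v j := by rw [hw, Function.update_self]
  have hQ0 : Q i0 = z := by rw [hQ, Function.update_self]
  have hwi : ∀ i, i ≠ i0 → w i = c i • v i := fun i hi => by rw [hw, Function.update_of_ne hi]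
  have hQi : ∀ i, i ≠ i0 → Q i = P i := fun i hi => by rw [hQ, Function.update_of_ne hi]
  have hsum : ∑ j, w j = 0 := by
    rw [← Finset.add_sum_erase _ _ (Finset.mem_univ i0), hw0]
    have h3 : ∑ j ∈ Finset.univ.erase i0, w j = ∑ j, c j • v j := by
      rw [← Finset.add_sum_erase (a := i0) Finset.univ (fun j => c j • v j) (Finset.mem_univ i0), hi0,
        zero_smul, zero_add]
      exact Finset.sum_congr rfl fun j hj => hwi j (Finset.ne_of_mem_erase hj)
    rw [h3]
    abel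
  have hn : ∀ x : Fin 3 → ℝ, w i0 ⬝ᵥ x = -∑ j, c j * (v j ⬝ᵥ x) := by
    intro x
    rw [hw0, neg_dotProduct, sum_dotProduct]
    simp only [smul_dotProduct, smul_eq_mul]
  have hval : ∀ x : Fin 3 → ℝ, ∑ i, c i * LL P v i x =
      (∑ i, c i * (v i ⬝ᵥ toR (P i))) + w i0 ⬝ᵥ x := by
    intro x
    rw [hn]
    simp only [LL_eq, mul_sub, Finset.sum_sub_distrib]
    ring
  have hh : (∑ j, w (τ j) ⬝ᵥ toR (Q (τ j))) = ∑ i, c i * LL P v i (toR z) := by
    rw [Equiv.sum_comp τ (fun j => w j ⬝ᵥ toR (Q j)), hval,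
      ← Finset.add_sum_erase _ _ (Finset.mem_univ i0), hQ0]
    have h3 : ∑ j ∈ Finset.univ.erase i0, w j ⬝ᵥ toR (Q j) = ∑ i, c i * (v i ⬝ᵥ toR (P i)) := by
      rw [← Finset.add_sum_erase (a := i0) Finset.univ (fun i => c i * (v i ⬝ᵥ toR (P i)))
        (Finset.mem_univ i0), hi0, zero_mul, zero_add]
      refine Finset.sum_congr rfl fun j hj => ?_
      rw [hwi j (Finset.ne_of_mem_erase hj), hQi j (Finset.ne_of_mem_erase hj), smul_dotProduct,
        smul_eq_mul]
    rw [h3]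
    ring
  have hsep : ∀ j, ∀ x ∈ K, w j ⬝ᵥ x ≤ w j ⬝ᵥ toR (Q j) := by
    intro j x hx
    by_cases hj : j = i0
    · subst hj
      rw [hQ0]
      have h4 := hc x hx
      rw [hval x, hval (toR z)] at h4
      linarith
    · rw [hwi j hj, hQi j hj, smul_dotProduct, smul_dotProduct, smul_eq_mul, smul_eq_mul]
      exact mul_le_mul_of_nonneg_left (hS.sep j x hx) (hc0 j)
  have h2 := hm.le (fun k => Q (τ k)) (fun k => w (τ k)) hb (by
      rw [Equiv.sum_comp τ w]
      exact hsum) (fun j x hx => hsep (τ j) x hx) (by rw [hh]; exact hpos)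
  rw [hh] at h2
  exact h2

end Pool.Agent.Helper46.GM
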