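import Pool.Agent.Helper46.GM.Defs

/-!
# MP_be0fb5, full answer: consequences of the minimality of the size (helper44's (GM))
-/

set_option autoImplicit false
set_option linter.unreachableTactic false
set_option linter.unusedTactic false
set_option linter.unnecessarySeqFocus false

namespace Pool.Agent.Helper46.GM

open Matrix Pool.Agent.Helper12.LW
open Pool.Agent.Helper84.FL (Superbase)

variable {K : Set (Fin 3 → ℝ)} {P : Fin 4 → Fin 3 → ℤ} {v : Fin 4 → Fin 3 → ℝ} {η : ℝ}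

theorem GG_smul (s : ℝ) (v : Fin 4 → Fin 3 → ℝ) (u : Fin 3 → ℤ) (k : Fin 4) :
    GG (fun j => s • v j) u k = s * GG v u k := by
  unfold GG
  rw [smul_dotProduct, smul_eq_mul]

theorem PHI_smul (P : Fin 4 → Fin 3 → ℤ) (s : ℝ) (v : Fin 4 → Fin 3 → ℝ) :
    PHI P (fun j => s • v j) = s ^ 2 * PHI P v := by
  unfold PHI
  simp only [GG_smul, mul_pow, ← Finset.mul_sum]
  ring

/-- the general comparison -/
theorem NearMin.le (hm : NearMin K η P v) (P' : Fin 4 → Fin 3 → ℤ) (v' : Fin 4 → Fin 3 → ℝ)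
    (hb : Superbase (cyc P')) (h0 : ∑ j, v' j = 0)
    (hs : ∀ j, ∀ x ∈ K, v' j ⬝ᵥ x ≤ v' j ⬝ᵥ toR (P' j)) (hh : 0 < ∑ j, v' j ⬝ᵥ toR (P' j)) :
    (∑ j, v' j ⬝ᵥ toR (P' j)) ^ 2 * PHI P v ≤ (1 + η) * PHI P' v' := by
  set h := ∑ j, v' j ⬝ᵥ toR (P' j) with hdef
  have hS : Sys K P' (fun j => h⁻¹ • v' j) := by
    refine ⟨hb, ?_, ?_, ?_⟩
    · rw [← Finset.smul_sum, h0, smul_zero]
    · simp only [smul_dotProduct, smul_eq_mul, ← Finset.mul_sum]
      exact inv_mul_cancel₀ hh.ne'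
    · intro j x hx
      rw [smul_dotProduct, smul_dotProduct, smul_eq_mul, smul_eq_mul]
      exact mul_le_mul_of_nonneg_left (hs j x hx) (inv_nonneg.2 hh.le)
  have h1 := hm.2 P' _ hS
  rw [PHI_smul] at h1
  have h2 : h ^ 2 * (h⁻¹ ^ 2 * PHI P' v') = PHI P' v' := by
    rw [← mul_assoc, ← mul_pow, mul_inv_cancel₀ hh.ne', one_pow, one_mul]
  calc h ^ 2 * PHI P v ≤ h ^ 2 * ((1 + η) * (h⁻¹ ^ 2 * PHI P' v')) :=
        mul_le_mul_of_nonneg_left h1 (sq_nonneg _)
    _ = (1 + η) * (h ^ 2 * (h⁻¹ ^ 2 * PHI P' v')) := by ring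
    _ = (1 + η) * PHI P' v' := by rw [h2]

/-- superbases obtained from the cyclic differences -/
theorem sb_swap (h : Superbase (cyc P)) : Superbase (cyc ![P 0, P 2, P 1, P 3]) := by
  refine sb_trans h (cyc_sum _) fun l => ?_
  fin_cases l
  · exact ⟨![1, 1, 0, 0], by
      simp only [cyc, Fin.sum_univ_four, Matrix.cons_val_zero, Matrix.cons_val_one, Matrix.cons_val]
      simp <;> abel⟩
  · exact ⟨![0, -1, 0, 0], by
      simp only [cyc, Fin.sum_univ_four, Matrix.cons_val_zero, Matrix.cons_val_one, Matrix.cons_val]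
      simp <;> abel⟩
  · exact ⟨![0, 1, 1, 0], by
      simp only [cyc, Fin.sum_univ_four, Matrix.cons_val_zero, Matrix.cons_val_one, Matrix.cons_val]
      simp <;> abel⟩
  · exact ⟨![0, 0, 0, 1], by
      simp only [cyc, Fin.sum_univ_four, Matrix.cons_val_zero, Matrix.cons_val_one, Matrix.cons_val]
      simp <;> abel⟩

theorem sb_rot (h : Superbase (cyc P)) : Superbase (cyc ![P 1, P 2, P 3, P 0]) := by
  refine sb_trans h (cyc_sum _) fun l => ?_
  fin_cases l
  · exact ⟨![0, 0, 0, 1], by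
      simp only [cyc, Fin.sum_univ_four, Matrix.cons_val_zero, Matrix.cons_val_one, Matrix.cons_val]
      simp <;> abel⟩
  · exact ⟨![1, 0, 0, 0], by
      simp only [cyc, Fin.sum_univ_four, Matrix.cons_val_zero, Matrix.cons_val_one, Matrix.cons_val]
      simp <;> abel⟩
  · exact ⟨![0, 1, 0, 0], by
      simp only [cyc, Fin.sum_univ_four, Matrix.cons_val_zero, Matrix.cons_val_one, Matrix.cons_val]
      simp <;> abel⟩
  · exact ⟨![0, 0, 1, 0], by
      simp only [cyc, Fin.sum_univ_four, Matrix.cons_val_zero, Matrix.cons_val_one, Matrix.cons_val]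
      simp <;> abel⟩

/-- the reflected point of the middle point `P 1` -/
def refl (P : Fin 4 → Fin 3 → ℤ) : Fin 3 → ℤ := P 0 + P 2 - P 1

theorem sb_B (h : Superbase (cyc P)) : Superbase (cyc ![P 0, refl P, P 2, P 3]) := by
  refine sb_trans h (cyc_sum _) fun l => ?_
  fin_cases l
  · exact ⟨![0, 1, 0, 0], by
      simp only [cyc, refl, Fin.sum_univ_four, Matrix.cons_val_zero, Matrix.cons_val_one, Matrix.cons_val]
      simp <;> abel⟩
  · exact ⟨![1, 0, 0, 0], by
      simp only [cyc, refl, Fin.sum_univ_four, Matrix.cons_val_zero, Matrix.cons_val_one, Matrix.cons_val]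
      simp <;> abel⟩
  · exact ⟨![0, 0, 1, 0], by
      simp only [cyc, refl, Fin.sum_univ_four, Matrix.cons_val_zero, Matrix.cons_val_one, Matrix.cons_val]
      simp <;> abel⟩
  · exact ⟨![0, 0, 0, 1], by
      simp only [cyc, refl, Fin.sum_univ_four, Matrix.cons_val_zero, Matrix.cons_val_one, Matrix.cons_val]
      simp <;> abel⟩

theorem sb_A (h : Superbase (cyc P)) : Superbase (cyc ![refl P, P 2, P 1, P 3]) := by
  refine sb_trans h (cyc_sum _) fun l => ?_
  fin_cases l
  · exact ⟨![1, 0, 0, 0], by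
      simp only [cyc, refl, Fin.sum_univ_four, Matrix.cons_val_zero, Matrix.cons_val_one, Matrix.cons_val]
      simp <;> abel⟩
  · exact ⟨![0, -1, 0, 0], by
      simp only [cyc, refl, Fin.sum_univ_four, Matrix.cons_val_zero, Matrix.cons_val_one, Matrix.cons_val]
      simp <;> abel⟩
  · exact ⟨![0, 1, 1, 0], by
      simp only [cyc, refl, Fin.sum_univ_four, Matrix.cons_val_zero, Matrix.cons_val_one, Matrix.cons_val]
      simp <;> abel⟩
  · exact ⟨![0, 1, 0, 1], by
      simp only [cyc, refl, Fin.sum_univ_four, Matrix.cons_val_zero, Matrix.cons_val_one, Matrix.cons_val]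
      simp <;> abel⟩

theorem sb_C (h : Superbase (cyc P)) : Superbase (cyc ![P 1, P 0, refl P, P 3]) := by
  refine sb_trans h (cyc_sum _) fun l => ?_
  fin_cases l
  · exact ⟨![-1, 0, 0, 0], by
      simp only [cyc, refl, Fin.sum_univ_four, Matrix.cons_val_zero, Matrix.cons_val_one, Matrix.cons_val]
      simp <;> abel⟩
  · exact ⟨![0, 1, 0, 0], by
      simp only [cyc, refl, Fin.sum_univ_four, Matrix.cons_val_zero, Matrix.cons_val_one, Matrix.cons_val]
      simp <;> abel⟩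
  · exact ⟨![1, 0, 1, 0], by
      simp only [cyc, refl, Fin.sum_univ_four, Matrix.cons_val_zero, Matrix.cons_val_one, Matrix.cons_val]
      simp <;> abel⟩
  · exact ⟨![1, 0, 0, 1], by
      simp only [cyc, refl, Fin.sum_univ_four, Matrix.cons_val_zero, Matrix.cons_val_one, Matrix.cons_val]
      simp <;> abel⟩


/-- the size in terms of all values -/
theorem PHI_eq (P : Fin 4 → Fin 3 → ℤ) (v : Fin 4 → Fin 3 → ℝ) :
    PHI P v = ((∑ k, (v k ⬝ᵥ toR (P 1) - v k ⬝ᵥ toR (P 0)) ^ 2) +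
      (∑ k, (v k ⬝ᵥ toR (P 2) - v k ⬝ᵥ toR (P 1)) ^ 2) +
      (∑ k, (v k ⬝ᵥ toR (P 3) - v k ⬝ᵥ toR (P 2)) ^ 2) +
      (∑ k, (v k ⬝ᵥ toR (P 0) - v k ⬝ᵥ toR (P 3)) ^ 2)) / 2 := by
  unfold PHI
  rw [Fin.sum_univ_four (fun l => ∑ k, GG v (cyc P l) k ^ 2)]
  simp only [cyc, Matrix.cons_val_zero, Matrix.cons_val_one, Matrix.cons_val, GG_sub]

/-- cyclic rotation of a nearly minimal system -/
theorem NearMin.rot (hm : NearMin K η P v) :
    NearMin K η ![P 1, P 2, P 3, P 0] ![v 1, v 2, v 3, v 0] := by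
  have hS := hm.1.sep
  have h0 := hS.sum_zero
  have h1 := hS.norm_one
  rw [Fin.sum_univ_four] at h0 h1
  refine ⟨⟨sb_rot hm.1.base, ?_, ?_, ?_⟩, fun P' v' h' => ?_⟩
  · rw [Fin.sum_univ_four]
    simp only [Matrix.cons_val_zero, Matrix.cons_val_one, Matrix.cons_val]
    rw [← h0]
    abel
  · rw [Fin.sum_univ_four]
    simp only [Matrix.cons_val_zero, Matrix.cons_val_one, Matrix.cons_val]
    rw [← h1]
    ring
  · intro j x hx
    fin_cases j
    · exact hS.sep 1 x hx
    · exact hS.sep 2 x hx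
    · exact hS.sep 3 x hx
    · exact hS.sep 0 x hx
  · have h2 : PHI ![P 1, P 2, P 3, P 0] ![v 1, v 2, v 3, v 0] = PHI P v := by
      rw [PHI_eq, PHI_eq]
      simp only [Fin.sum_univ_four, Matrix.cons_val_zero, Matrix.cons_val_one, Matrix.cons_val]
      ring
    rw [h2]
    exact hm.2 P' v' h'

/-- **(GMa)** opposite pairs are nearly obtuse -/
theorem NearMin.opp (hm : NearMin K η P v) : PHI P v ≤ (1 + η) * (PHI P v + sel P v 1 3) := by
  have hS := hm.1.sep
  have h0 := hS.sum_zero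
  have h1 := hS.norm_one
  rw [Fin.sum_univ_four] at h0 h1
  have hh : (∑ j, (![v 0, v 2, v 1, v 3] : Fin 4 → Fin 3 → ℝ) j ⬝ᵥ
      toR ((![P 0, P 2, P 1, P 3] : Fin 4 → Fin 3 → ℤ) j)) = 1 := by
    rw [Fin.sum_univ_four]
    simp only [Matrix.cons_val_zero, Matrix.cons_val_one, Matrix.cons_val]
    rw [← h1]
    ring
  have h2 := hm.le ![P 0, P 2, P 1, P 3] ![v 0, v 2, v 1, v 3] (sb_swap hm.1.base) (by
      rw [Fin.sum_univ_four]
      simp only [Matrix.cons_val_zero, Matrix.cons_val_one, Matrix.cons_val]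
      rw [← h0]
      abel) (by
      intro j x hx
      fin_cases j
      · exact hS.sep 0 x hx
      · exact hS.sep 2 x hx
      · exact hS.sep 1 x hx
      · exact hS.sep 3 x hx) (by rw [hh]; norm_num)
  rw [hh, one_pow, one_mul] at h2
  have h3 : PHI ![P 0, P 2, P 1, P 3] ![v 0, v 2, v 1, v 3] = PHI P v + sel P v 1 3 := by
    rw [PHI_eq, PHI_eq]
    unfold sel
    simp only [Fin.sum_univ_four, Matrix.cons_val_zero, Matrix.cons_val_one, Matrix.cons_val, cyc, GG_sub]
    ring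
  rw [h3] at h2
  exact h2

/-- the value of a coordinate at the reflected point -/
theorem LL_refl (P : Fin 4 → Fin 3 → ℤ) (v : Fin 4 → Fin 3 → ℝ) (j : Fin 4) :
    LL P v j (toR (refl P)) = LL P v j (toR (P 0)) + LL P v j (toR (P 2)) - LL P v j (toR (P 1)) := by
  unfold LL refl
  rw [toR_sub, toR_add]
  simp only [dotProduct_sub, dotProduct_add]
  ring

/-- **(GMb), middle point** -/
theorem NearMin.mid (hm : NearMin K η P v) (hD : LL P v 1 (toR (refl P)) ≤ 0) :
    (1 - LL P v 1 (toR (refl P))) ^ 2 ≤ 1 + η := by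
  have hS := hm.1.sep
  have h0 := hS.sum_zero
  have h1 := hS.norm_one
  rw [Fin.sum_univ_four] at h0 h1
  have hL : LL P v 1 (toR (refl P)) = v 1 ⬝ᵥ toR (P 1) - v 1 ⬝ᵥ toR (refl P) := by
    unfold LL
    rw [dotProduct_sub]
  have hh : (∑ j, v j ⬝ᵥ toR ((![P 0, refl P, P 2, P 3] : Fin 4 → Fin 3 → ℤ) j)) =
      1 - LL P v 1 (toR (refl P)) := by
    rw [Fin.sum_univ_four, hL]
    simp only [Matrix.cons_val_zero, Matrix.cons_val_one, Matrix.cons_val]
    linarith
  have h2 := hm.le ![P 0, refl P, P 2, P 3] v (sb_B hm.1.base) hS.sum_zero (by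
      intro j x hx
      fin_cases j
      · exact hS.sep 0 x hx
      · exact (hS.sep 1 x hx).trans (by
          simp only [Matrix.cons_val_one, Matrix.cons_val_zero, Fin.mk_one]
          linarith)
      · exact hS.sep 2 x hx
      · exact hS.sep 3 x hx) (by rw [hh]; linarith)
  rw [hh] at h2
  have h3 : PHI ![P 0, refl P, P 2, P 3] v = PHI P v := by
    rw [PHI_eq, PHI_eq]
    simp only [Matrix.cons_val_zero, Matrix.cons_val_one, Matrix.cons_val, refl, toR_sub, toR_add,
      dotProduct_sub, dotProduct_add, Fin.sum_univ_four]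
    ring
  rw [h3] at h2
  have h4 : 0 < PHI P v := lt_of_lt_of_le (by norm_num) (PHI_ge hS)
  exact le_of_mul_le_mul_right h2 h4

/-- **(GMb), first point** -/
theorem NearMin.first (hm : NearMin K η P v) (hD : LL P v 0 (toR (refl P)) ≤ 0) :
    (1 - LL P v 0 (toR (refl P))) ^ 2 * PHI P v ≤ (1 + η) * (PHI P v + sel P v 0 1) := by
  have hS := hm.1.sep
  have h0 := hS.sum_zero
  have h1 := hS.norm_one
  rw [Fin.sum_univ_four] at h0 h1
  have hL : LL P v 0 (toR (refl P)) = v 0 ⬝ᵥ toR (P 0) - v 0 ⬝ᵥ toR (refl P) := by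
    unfold LL
    rw [dotProduct_sub]
  have hh : (∑ j, (![v 0, v 2, v 1, v 3] : Fin 4 → Fin 3 → ℝ) j ⬝ᵥ
      toR ((![refl P, P 2, P 1, P 3] : Fin 4 → Fin 3 → ℤ) j)) = 1 - LL P v 0 (toR (refl P)) := by
    rw [Fin.sum_univ_four, hL]
    simp only [Matrix.cons_val_zero, Matrix.cons_val_one, Matrix.cons_val]
    linarith
  have h2 := hm.le ![refl P, P 2, P 1, P 3] ![v 0, v 2, v 1, v 3] (sb_A hm.1.base) (by
      rw [Fin.sum_univ_four]
      simp only [Matrix.cons_val_zero, Matrix.cons_val_one, Matrix.cons_val]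
      rw [← h0]
      abel) (by
      intro j x hx
      fin_cases j
      · exact (hS.sep 0 x hx).trans (by
          simp only [Matrix.cons_val_zero, Fin.zero_eta]
          linarith)
      · exact hS.sep 2 x hx
      · exact hS.sep 1 x hx
      · exact hS.sep 3 x hx) (by rw [hh]; linarith)
  rw [hh] at h2
  have h3 : PHI ![refl P, P 2, P 1, P 3] ![v 0, v 2, v 1, v 3] = PHI P v + sel P v 0 1 := by
    rw [PHI_eq, PHI_eq]
    unfold sel
    simp only [Matrix.cons_val_zero, Matrix.cons_val_one, Matrix.cons_val, refl, toR_sub, toR_add,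
      dotProduct_sub, dotProduct_add, Fin.sum_univ_four, cyc, GG_sub]
    ring
  rw [h3] at h2
  exact h2

/-- **(GMb), last point** -/
theorem NearMin.last (hm : NearMin K η P v) (hD : LL P v 2 (toR (refl P)) ≤ 0) :
    (1 - LL P v 2 (toR (refl P))) ^ 2 * PHI P v ≤ (1 + η) * (PHI P v + sel P v 0 1) := by
  have hS := hm.1.sep
  have h0 := hS.sum_zero
  have h1 := hS.norm_one
  rw [Fin.sum_univ_four] at h0 h1
  have hL : LL P v 2 (toR (refl P)) = v 2 ⬝ᵥ toR (P 2) - v 2 ⬝ᵥ toR (refl P) := by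
    unfold LL
    rw [dotProduct_sub]
  have hh : (∑ j, (![v 1, v 0, v 2, v 3] : Fin 4 → Fin 3 → ℝ) j ⬝ᵥ
      toR ((![P 1, P 0, refl P, P 3] : Fin 4 → Fin 3 → ℤ) j)) = 1 - LL P v 2 (toR (refl P)) := by
    rw [Fin.sum_univ_four, hL]
    simp only [Matrix.cons_val_zero, Matrix.cons_val_one, Matrix.cons_val]
    linarith
  have h2 := hm.le ![P 1, P 0, refl P, P 3] ![v 1, v 0, v 2, v 3] (sb_C hm.1.base) (by
      rw [Fin.sum_univ_four]
      simp only [Matrix.cons_val_zero, Matrix.cons_val_one, Matrix.cons_val]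
      rw [← h0]
      abel) (by
      intro j x hx
      fin_cases j
      · exact hS.sep 1 x hx
      · exact hS.sep 0 x hx
      · exact (hS.sep 2 x hx).trans (by
          simp only [Fin.reduceFinMk, Matrix.cons_val]
          linarith)
      · exact hS.sep 3 x hx) (by rw [hh]; linarith)
  rw [hh] at h2
  have h3 : PHI ![P 1, P 0, refl P, P 3] ![v 1, v 0, v 2, v 3] = PHI P v + sel P v 0 1 := by
    rw [PHI_eq, PHI_eq]
    unfold sel
    simp only [Matrix.cons_val_zero, Matrix.cons_val_one, Matrix.cons_val, refl, toR_sub, toR_add,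
      dotProduct_sub, dotProduct_add, Fin.sum_univ_four, cyc, GG_sub]
    ring
  rw [h3] at h2
  exact h2

/-- the coordinates sum to one -/
theorem LL_sum (hS : Sep4 K P v) (x : Fin 3 → ℝ) : ∑ j, LL P v j x = 1 := by
  unfold LL
  simp only [dotProduct_sub, Finset.sum_sub_distrib]
  rw [hS.norm_one, ← sum_dotProduct, hS.sum_zero, zero_dotProduct, sub_zero]

theorem LL_nonneg (hS : Sep4 K P v) (j : Fin 4) {x : Fin 3 → ℝ} (hx : x ∈ K) : 0 ≤ LL P v j x := by
  unfold LL
  rw [dotProduct_sub]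
  linarith [hS.sep j x hx]

/-- **cut at a lattice point**: if the separators span, every lattice point gives a new inequality for `K`. -/
theorem exists_cut (hK : LFree K) (hS : Sep4 K P v) (hspan : ∀ m : Fin 3 → ℝ, ∃ c : Fin 4 → ℝ, ∑ k, c k • v k = m)
    (z : Fin 3 → ℤ) : ∃ c : Fin 4 → ℝ, (∀ i, 0 ≤ c i) ∧ (∃ i, c i = 0) ∧ (∃ i, c i = 1) ∧
      0 < ∑ i, c i * LL P v i (toR z) ∧
      ∀ x ∈ K, ∑ i, c i * LL P v i x ≤ ∑ i, c i * LL P v i (toR z) := by
  obtain ⟨φ, hφ⟩ := geometric_hahn_banach_open_point hK.convex.interior isOpen_interior (hK.free z)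
  obtain ⟨x0, hx0⟩ := hK.interior_nonempty
  have hφn : ∀ x : Fin 3 → ℝ, φ x = (fun k => φ (Pi.single k 1)) ⬝ᵥ x := by
    intro x
    have hx : x = ∑ k, x k • (Pi.single k 1 : Fin 3 → ℝ) := by
      funext i
      simp [Finset.sum_apply, Pi.single_apply]
    conv_lhs => rw [hx]
    rw [map_sum]
    simp only [map_smul, smul_eq_mul, dotProduct]
    exact Finset.sum_congr rfl fun k _ => mul_comm _ _
  set n : Fin 3 → ℝ := fun k => φ (Pi.single k 1) with hn
  have hle : ∀ x ∈ K, n ⬝ᵥ x ≤ n ⬝ᵥ toR z := by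
    intro x hx
    have hcl : x ∈ closure (interior K) := by
      rw [hK.convex.closure_interior_eq_closure_of_nonempty_interior hK.interior_nonempty]
      exact subset_closure hx
    have hclosed : IsClosed {y : Fin 3 → ℝ | n ⬝ᵥ y ≤ n ⬝ᵥ toR z} := by
      refine isClosed_le ?_ continuous_const
      exact continuous_const.dotProduct continuous_id
    refine closure_minimal (fun y hy => ?_) hclosed hcl
    have := hφ y hy
    rw [hφn, hφn] at this
    exact this.le
  have hlt : n ⬝ᵥ x0 < n ⬝ᵥ toR z := by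
    have := hφ x0 hx0
    rwa [hφn, hφn] at this
  obtain ⟨d, hd⟩ := hspan (-n)
  have hval : ∀ x : Fin 3 → ℝ, ∑ i, d i * LL P v i x = ∑ i, d i * (v i ⬝ᵥ toR (P i)) + n ⬝ᵥ x := by
    intro x
    have h1 : ∑ i, d i * (v i ⬝ᵥ x) = -(n ⬝ᵥ x) := by
      rw [← neg_dotProduct, ← hd, sum_dotProduct]
      exact Finset.sum_congr rfl fun i _ => by rw [smul_dotProduct, smul_eq_mul]
    unfold LL
    simp only [dotProduct_sub, mul_sub, Finset.sum_sub_distrib]
    rw [h1]
    ring
  obtain ⟨i0, -, hi0⟩ := Finset.exists_min_image Finset.univ d ⟨0, Finset.mem_univ _⟩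
  obtain ⟨i1, -, hi1⟩ := Finset.exists_max_image Finset.univ d ⟨0, Finset.mem_univ _⟩
  have hpos : 0 < d i1 - d i0 := by
    by_contra hcon
    have hconst : ∀ i, d i = d i0 := fun i =>
      le_antisymm (by linarith [hi1 i (Finset.mem_univ i)]) (hi0 i (Finset.mem_univ i))
    have h1 := hval x0
    have h2 := hval (toR z)
    simp only [hconst, ← Finset.mul_sum] at h1 h2
    rw [LL_sum hS] at h1 h2
    linarith
  have hrw : ∀ y : Fin 3 → ℝ, ∑ i, (d i - d i0) / (d i1 - d i0) * LL P v i y =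
      (∑ i, d i * LL P v i y - d i0) / (d i1 - d i0) := by
    intro y
    have h3 : ∑ i, (d i - d i0) * LL P v i y = ∑ i, d i * LL P v i y - d i0 := by
      simp only [sub_mul, Finset.sum_sub_distrib, ← Finset.mul_sum]
      rw [LL_sum hS, mul_one]
    rw [← h3, Finset.sum_div]
    exact Finset.sum_congr rfl fun i _ => by ring
  refine ⟨fun i => (d i - d i0) / (d i1 - d i0), fun i => ?_, ⟨i0, ?_⟩, ⟨i1, ?_⟩, ?_, fun x hx => ?_⟩
  · exact div_nonneg (by linarith [hi0 i (Finset.mem_univ i)]) hpos.le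
  · show (d i0 - d i0) / (d i1 - d i0) = 0
    rw [sub_self, zero_div]
  · show (d i1 - d i0) / (d i1 - d i0) = 1
    exact div_self hpos.ne'
  · have h4 : 0 ≤ ∑ i, (d i - d i0) / (d i1 - d i0) * LL P v i x0 :=
      Finset.sum_nonneg fun i _ => mul_nonneg
        (div_nonneg (by linarith [hi0 i (Finset.mem_univ i)]) hpos.le) (LL_nonneg hS i (interior_subset hx0))
    refine lt_of_le_of_lt h4 ?_
    simp only [hrw]
    refine div_lt_div_of_pos_right ?_ hpos
    rw [hval x0, hval (toR z)]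
    linarith
  · simp only [hrw]
    refine div_le_div_of_nonneg_right ?_ hpos.le
    rw [hval x, hval (toR z)]
    linarith [hle x hx]

/-- **(GMt) truncation**: a lattice point `z` cuts off a vertex at least at the depth of one of its coordinates. -/
theorem truncate (hK : LFree K) (hS : Sep4 K P v) (hspan : ∀ m : Fin 3 → ℝ, ∃ c : Fin 4 → ℝ, ∑ k, c k • v k = m)
    (z : Fin 3 → ℤ) (hz : ∀ i, 0 ≤ LL P v i (toR z)) :
    ∃ i k, i ≠ k ∧ ∀ x ∈ K, LL P v k x ≤ 1 - LL P v i (toR z) := by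
  obtain ⟨c, hc0, ⟨i0, hi0⟩, ⟨k, hk⟩, -, hc⟩ := exists_cut hK hS hspan z
  obtain ⟨k1, -, hk1⟩ := Finset.exists_max_image Finset.univ c ⟨0, Finset.mem_univ _⟩
  have hk1pos : 0 < c k1 := by
    have := hk1 k (Finset.mem_univ k)
    rw [hk] at this
    linarith
  refine ⟨i0, k1, fun h => ?_, fun x hx => ?_⟩
  · rw [← h, hi0] at hk1pos
    exact lt_irrefl _ hk1pos
  · have h1 := hc x hx
    have h2 : c k1 * LL P v k1 x ≤ ∑ i, c i * LL P v i x :=
      Finset.single_le_sum (f := fun i => c i * LL P v i x)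
        (fun i _ => mul_nonneg (hc0 i) (LL_nonneg hS i hx)) (Finset.mem_univ k1)
    have h3 : ∑ i, c i * LL P v i (toR z) ≤ c k1 * (1 - LL P v i0 (toR z)) := by
      have h4 : ∑ i, c i * LL P v i (toR z) = ∑ i ∈ Finset.univ.erase i0, c i * LL P v i (toR z) := by
        rw [← Finset.add_sum_erase _ _ (Finset.mem_univ i0), hi0, zero_mul, zero_add]
      have h5 : 1 - LL P v i0 (toR z) = ∑ i ∈ Finset.univ.erase i0, LL P v i (toR z) := by
        rw [← LL_sum hS (toR z), ← Finset.add_sum_erase _ _ (Finset.mem_univ i0)]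
        ring
      rw [h4, h5, Finset.mul_sum]
      exact Finset.sum_le_sum fun i _ => mul_le_mul_of_nonneg_right (hk1 i (Finset.mem_univ i)) (hz i)
    have h6 : c k1 * LL P v k1 x ≤ c k1 * (1 - LL P v i0 (toR z)) := h2.trans (h1.trans h3)
    exact le_of_mul_le_mul_left h6 hk1pos

end Pool.Agent.Helper46.GM
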